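import Mathlib
import Pool.Agent.H220.K.Stm

set_option autoImplicit false

open Set Filter Topology Metric
open scoped ContDiff ComplexConjugate

namespace Pool.Agent.H729.K

open Pool.Agent.H220.K

lemma escA_sig {a : ℕ → ℂ} (h1 : ∀ n, ‖a n‖ ≤ 1) (n : ℕ) :
    0 ≤ (-Real.log ‖a n‖ + Real.log 2) / 2 ^ (n + 1) := by
  have h2 : Real.log ‖a n‖ ≤ 0 := Real.log_nonpos (norm_nonneg _) (h1 n)
  have h3 : 0 ≤ Real.log 2 := Real.log_nonneg (by norm_num)
  exact div_nonneg (by linarith) (by positivity)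

theorem s_escA : S_escA := by
  intro a y S ha h1 hS hy hy0 hy1
  have hS0 : 0 ≤ S := by simpa using hS 0
  have key : ∀ n : ℕ, 2 ^ n * (2 * S + 10 -
      ∑ l ∈ Finset.range n, (-Real.log ‖a l‖ + Real.log 2) / 2 ^ (l + 1)) ≤
        Real.log ‖y (n + 1)‖ ∧ y (n + 1) ≠ 0 ∧ ‖y n‖ ≤ ‖y (n + 1)‖ := by
    intro n
    induction n with
    | zero =>
      have h3 : y (0 + 1) ≠ 0 := by
        intro hc
        have : y 1 = 0 := hc
        rw [this, norm_zero, Real.log_zero] at hy1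
        linarith
      refine ⟨by simpa using hy1, h3, ?_⟩
      have h4 : 0 < ‖y 1‖ := norm_pos_iff.2 h3
      have h5 : 1 ≤ ‖y 1‖ := by
        have h6 : 0 ≤ Real.log ‖y 1‖ := by linarith
        by_contra hc
        push Not at hc
        have := Real.log_neg h4 hc
        linarith
      exact hy0.trans h5
    | succ n ih =>
      obtain ⟨i1, i2, i3⟩ := ih
      have hp : 0 < ‖y (n + 1)‖ := norm_pos_iff.2 i2
      have hap : 0 < ‖a n‖ := norm_pos_iff.2 (ha n)
      have hsum := hS (n + 1)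
      rw [Finset.sum_range_succ] at hsum
      set s : ℝ := ∑ l ∈ Finset.range n, (-Real.log ‖a l‖ + Real.log 2) / 2 ^ (l + 1) with hs
      set t : ℝ := (-Real.log ‖a n‖ + Real.log 2) / 2 ^ (n + 1) with ht
      have hs0 : 0 ≤ s := Finset.sum_nonneg fun l _ => escA_sig h1 l
      have ht0 : 0 ≤ t := escA_sig h1 n
      have h2p : (0 : ℝ) < 2 ^ n := by positivity
      have htt : 2 ^ n * (2 * t) = -Real.log ‖a n‖ + Real.log 2 := by
        rw [ht]
        field_simp
        ring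
      -- the product is at least two
      have hlog : Real.log 2 ≤ Real.log (‖a n‖ * ‖y (n + 1)‖) := by
        rw [Real.log_mul hap.ne' hp.ne']
        have h3 : 2 ^ n * (2 * t) ≤ 2 ^ n * (2 * S + 10 - s) :=
          mul_le_mul_of_nonneg_left (by linarith) h2p.le
        linarith
      have h2 : 2 ≤ ‖a n‖ * ‖y (n + 1)‖ :=
        (Real.log_le_log_iff (by norm_num) (by positivity)).1 hlog
      have hq : ‖a n‖ * ‖y (n + 1)‖ ^ 2 - ‖y n‖ ≤ ‖y (n + 2)‖ := by
        rw [hy n]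
        have h4 : ‖a n * y (n + 1) ^ 2‖ ≤ ‖y n + a n * y (n + 1) ^ 2‖ + ‖y n‖ := by
          have h5 := norm_sub_le (y n + a n * y (n + 1) ^ 2) (y n)
          have h6 : y n + a n * y (n + 1) ^ 2 - y n = a n * y (n + 1) ^ 2 := by ring
          rw [h6] at h5
          exact h5
        rw [norm_mul, norm_pow] at h4
        linarith
      have hq2 : ‖a n‖ * ‖y (n + 1)‖ ^ 2 / 2 ≤ ‖y (n + 2)‖ := by
        have h5 : 2 * ‖y (n + 1)‖ ≤ ‖a n‖ * ‖y (n + 1)‖ * ‖y (n + 1)‖ :=
          mul_le_mul_of_nonneg_right h2 hp.le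
        nlinarith
      have hq3 : ‖y (n + 1)‖ ≤ ‖y (n + 2)‖ := by
        have h5 : 2 * ‖y (n + 1)‖ ≤ ‖a n‖ * ‖y (n + 1)‖ * ‖y (n + 1)‖ :=
          mul_le_mul_of_nonneg_right h2 hp.le
        nlinarith
      have hne : y (n + 2) ≠ 0 := norm_pos_iff.1 (hp.trans_le hq3)
      refine ⟨?_, hne, hq3⟩
      have h7 : Real.log (‖a n‖ * ‖y (n + 1)‖ ^ 2 / 2) ≤ Real.log ‖y (n + 2)‖ :=
        Real.log_le_log (by positivity) hq2
      rw [Real.log_div (by positivity) (by norm_num), Real.log_mul hap.ne' (by positivity),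
        Real.log_pow] at h7
      rw [Finset.sum_range_succ, ← hs, ← ht]
      have h8 : (2 : ℝ) ^ (n + 1) * (2 * S + 10 - (s + t)) =
          2 * (2 ^ n * (2 * S + 10 - s)) - 2 ^ n * (2 * t) := by
        rw [pow_succ]; ring
      show (2 : ℝ) ^ (n + 1) * (2 * S + 10 - (s + t)) ≤ Real.log ‖y (n + 2)‖
      rw [h8, htt]
      push_cast at h7
      linarith
  intro n
  obtain ⟨h3, -, -⟩ := key n
  have h4 := hS n
  have h5 : (0 : ℝ) < 2 ^ n := by positivity
  have h6 : (2 : ℝ) ^ n * 10 ≤ 2 ^ n * (2 * S + 10 -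
      ∑ l ∈ Finset.range n, (-Real.log ‖a l‖ + Real.log 2) / 2 ^ (l + 1)) :=
    mul_le_mul_of_nonneg_left (by linarith) h5.le
  linarith

end Pool.Agent.H729.K
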